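import Pool.Agent.H46.Sm3

namespace Pool.Agent.Results.MP_608a10_al.TwoUnbounded

open Pool.Agent.H46.SmR

theorem result :
    ∀ f ∈ DiffPlus, ¬ Bornology.IsBounded {x | f x ≠ x} → ∃ r₁ r₂ : ℝ ≃ₜ ℝ,
      Reversible r₁ ∧ Reversible r₂ ∧ f = r₁ * r₂ :=
  main2

end Pool.Agent.Results.MP_608a10_al.TwoUnbounded
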